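import Pool.Agent.P8H63.RS.Stm

/-!
Project RS (helper63), package SLO: the slope inequality for `r(X) = n - dim X^⊥` (adaptation of
`Pool.Agent.P8H63.KS.Slope` by helper63).
-/

set_option autoImplicit false

namespace Pool.Agent.P8H21.RS

open Module Pool.Agent.P8H63.RS
open Pool.Agent.W332.OK

section

variable {κ : Type} [Field κ] [Algebra ℚ κ] {n : ℕ} {E : Type} [AddCommGroup E] [Module κ E]
  (β : (Fin n → κ) →ₗ[κ] (Fin n → κ) →ₗ[κ] E)

/-- the codimension of the orthogonal -/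
noncomputable def rr (X : Submodule κ (Fin n → κ)) : ℕ := n - finrank κ (NN β X)

omit [Algebra ℚ κ] in
theorem fin_le (X : Submodule κ (Fin n → κ)) : finrank κ X ≤ n := by
  have h := Submodule.finrank_le X
  rwa [finrank_fin_fun] at h

omit [Algebra ℚ κ] in
theorem rr_bot : rr β (⊥ : Submodule κ (Fin n → κ)) = 0 := by
  unfold rr
  rw [NN_bot, finrank_top, finrank_fin_fun, Nat.sub_self]

omit [Algebra ℚ κ] in
theorem rr_sub (X Y : Submodule κ (Fin n → κ)) : rr β (X ⊔ Y) + rr β (X ⊓ Y) ≤ rr β X + rr β Y := by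
  have h2 := Submodule.finrank_sup_add_finrank_inf_eq (NN β X) (NN β Y)
  have h3 := Submodule.finrank_mono (NN_inf β X Y)
  have h4 := fin_le (NN β X)
  have h5 := fin_le (NN β Y)
  have h6 := fin_le (NN β (X ⊓ Y))
  have h7 := fin_le (NN β X ⊓ NN β Y)
  unfold rr
  rw [NN_sup]
  omega

theorem rr_tw (hβ : ∀ (σ : κ ≃ₐ[ℚ] κ) (w v : Fin n → κ), β w v = 0 →
    β (fun i => σ (w i)) (fun i => σ (v i)) = 0) (σ : κ ≃ₐ[ℚ] κ)
    (X : Submodule κ (Fin n → κ)) : rr β (tw σ X) = rr β X := by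
  unfold rr
  rw [NN_tw β hβ, finrank_tw]

omit [Algebra ℚ κ] in
/-- a space of smallest slope -/
theorem exists_min (A U : Submodule κ (Fin n → κ)) (hUA : U ≤ A) (hU : U ≠ ⊥) :
    ∃ X : Submodule κ (Fin n → κ), X ≤ A ∧ X ≠ ⊥ ∧ ∀ Y : Submodule κ (Fin n → κ), Y ≤ A → Y ≠ ⊥ →
      rr β X * finrank κ Y ≤ rr β Y * finrank κ X := by
  classical
  have hpos : ∀ Y : Submodule κ (Fin n → κ), Y ≠ ⊥ → 0 < finrank κ Y := by
    intro Y hY
    rw [Nat.pos_iff_ne_zero, Ne, Submodule.finrank_eq_zero]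
    exact hY
  let N : Submodule κ (Fin n → κ) → ℕ := fun Y => rr β Y * (n.factorial / finrank κ Y)
  have hex : ∃ k, ∃ Y : Submodule κ (Fin n → κ), Y ≤ A ∧ Y ≠ ⊥ ∧ N Y = k := ⟨_, U, hUA, hU, rfl⟩
  obtain ⟨X, hXA, hX, hXN⟩ := Nat.find_spec hex
  refine ⟨X, hXA, hX, fun Y hYA hY => ?_⟩
  have h1 : N X ≤ N Y := by
    rw [hXN]
    exact Nat.find_min' hex ⟨Y, hYA, hY, rfl⟩
  have hdX : finrank κ X ∣ n.factorial := Nat.dvd_factorial (hpos X hX) (fin_le X)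
  have hdY : finrank κ Y ∣ n.factorial := Nat.dvd_factorial (hpos Y hY) (fin_le Y)
  have h2 := Nat.mul_le_mul_right (finrank κ X * finrank κ Y) h1
  have e1 : N X * (finrank κ X * finrank κ Y) = (rr β X * finrank κ Y) * n.factorial := by
    calc N X * (finrank κ X * finrank κ Y) = rr β X * finrank κ Y *
          (n.factorial / finrank κ X * finrank κ X) := by
          simp only [N]
          ring
      _ = _ := by rw [Nat.div_mul_cancel hdX]
  have e2 : N Y * (finrank κ X * finrank κ Y) = (rr β Y * finrank κ X) * n.factorial := by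
    calc N Y * (finrank κ X * finrank κ Y) = rr β Y * finrank κ X *
          (n.factorial / finrank κ Y * finrank κ Y) := by
          simp only [N]
          ring
      _ = _ := by rw [Nat.div_mul_cancel hdY]
  rw [e1, e2] at h2
  exact Nat.le_of_mul_le_mul_right h2 (Nat.factorial_pos n)

theorem stable_sup (U : Submodule κ (Fin n → κ)) :
    ∀ σ : κ ≃ₐ[ℚ] κ, ∀ x ∈ (⨆ σ : κ ≃ₐ[ℚ] κ, tw σ U),
      (fun i => σ (x i)) ∈ ⨆ σ : κ ≃ₐ[ℚ] κ, tw σ U := by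
  intro σ x hx
  have hle : ∀ σ : κ ≃ₐ[ℚ] κ, tw σ U ≤ ⨆ σ : κ ≃ₐ[ℚ] κ, tw σ U :=
    fun σ => le_iSup (fun σ : κ ≃ₐ[ℚ] κ => tw σ U) σ
  have h1 : (⨆ σ : κ ≃ₐ[ℚ] κ, tw σ U) ≤ tw σ.symm (⨆ σ : κ ≃ₐ[ℚ] κ, tw σ U) := by
    apply iSup_le
    intro τ y hy
    rw [mem_tw]
    apply hle (σ * τ)
    rw [mem_tw] at hy ⊢
    have h2 : (fun i => (σ * τ).symm (σ.symm.symm (y i))) = fun i => τ.symm (y i) := by
      funext i
      change τ.symm (σ.symm (σ (y i))) = _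
      rw [AlgEquiv.symm_apply_apply]
    rw [h2]
    exact hy
  exact h1 hx

end

/-- **SLO.** -/
theorem slo : S_SLO := by
  classical
  intro κ _ _ _ n E _ _ β hβ A U hUA hU
  change ∃ Z : Submodule κ (Fin n → κ), Z ≠ ⊥ ∧ Z ≤ (⨆ σ : κ ≃ₐ[ℚ] κ, tw σ A) ∧
    (∀ σ : κ ≃ₐ[ℚ] κ, ∀ x ∈ Z, (fun i => σ (x i)) ∈ Z) ∧
    rr β Z * finrank κ U ≤ rr β U * finrank κ Z
  obtain ⟨X₁, hX₁A, hX₁, hmin⟩ := exists_min β A U hUA hU
  have hpos : 0 < finrank κ X₁ := by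
    rw [Nat.pos_iff_ne_zero, Ne, Submodule.finrank_eq_zero]
    exact hX₁
  obtain ⟨W, hW⟩ : ∃ W : Submodule κ (Fin n → κ), W = ⨆ σ : κ ≃ₐ[ℚ] κ, tw σ X₁ := ⟨_, rfl⟩
  have hle : ∀ σ : κ ≃ₐ[ℚ] κ, tw σ X₁ ≤ W := fun σ => by
    rw [hW]
    exact le_iSup (fun σ : κ ≃ₐ[ℚ] κ => tw σ X₁) σ
  obtain ⟨X, hX, hmax⟩ := (wellFounded_gt (α := Submodule κ (Fin n → κ))).has_min
    {X | rr β X * finrank κ X₁ ≤ rr β X₁ * finrank κ X ∧ X ≤ W} ⟨⊥, by
      rw [rr_bot, zero_mul]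
      exact Nat.zero_le _, bot_le⟩
  obtain ⟨hX1, hX3⟩ := hX
  have hsub : ∀ σ : κ ≃ₐ[ℚ] κ, tw σ X₁ ≤ X := by
    intro σ
    have h1 := rr_sub β X (tw σ X₁)
    have h1' := rr_tw β hβ σ X₁
    have h5 := Submodule.finrank_sup_add_finrank_inf_eq X (tw σ X₁)
    rw [finrank_tw] at h5
    have h6 : rr β X₁ * finrank κ ↥(X ⊓ tw σ X₁) ≤ rr β (X ⊓ tw σ X₁) * finrank κ X₁ := by
      by_cases h0 : X ⊓ tw σ X₁ = ⊥
      · rw [h0, finrank_bot, mul_zero]
        exact Nat.zero_le _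
      · have h7 := hmin (tw σ.symm (X ⊓ tw σ X₁)) (by
          intro x hx
          have h6 : (fun i => σ (x i)) ∈ X ⊓ tw σ X₁ := hx
          have h7 := mem_tw.1 h6.2
          apply hX₁A
          simpa only [AlgEquiv.symm_apply_apply] using h7) (by
          intro h
          apply h0
          rw [← Submodule.finrank_eq_zero (R := κ)]
          have h8 := finrank_tw σ.symm (X ⊓ tw σ X₁)
          rw [h, finrank_bot] at h8
          exact h8.symm)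
        rwa [finrank_tw, rr_tw β hβ] at h7
    have h8 : rr β (X ⊔ tw σ X₁) * finrank κ X₁ ≤ rr β X₁ * finrank κ ↥(X ⊔ tw σ X₁) := by
      obtain ⟨a, ha⟩ : ∃ a, a = rr β (X ⊔ tw σ X₁) := ⟨_, rfl⟩
      obtain ⟨b, hb⟩ : ∃ b, b = rr β (X ⊓ tw σ X₁) := ⟨_, rfl⟩
      obtain ⟨c, hc⟩ : ∃ c, c = rr β X := ⟨_, rfl⟩
      obtain ⟨d, hd⟩ : ∃ d, d = rr β X₁ := ⟨_, rfl⟩
      rw [← hb, ← hd] at h6
      rw [← hc, ← hd] at hX1
      rw [← ha, ← hd]
      have h9 : a + b ≤ c + d := by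
        rw [ha, hb, hc, hd]
        rwa [h1'] at h1
      obtain ⟨u, hu⟩ : ∃ u, u = finrank κ ↥(X ⊔ tw σ X₁) := ⟨_, rfl⟩
      obtain ⟨v, hv⟩ : ∃ v, v = finrank κ ↥(X ⊓ tw σ X₁) := ⟨_, rfl⟩
      rw [← hv] at h6
      rw [← hu, ← hv] at h5
      rw [← hu]
      have h10 := Nat.mul_le_mul_right (finrank κ X₁) h9
      have h11 : d * (u + v) = d * (finrank κ X + finrank κ X₁) := by rw [h5]
      nlinarith
    have h9 := hmax (X ⊔ tw σ X₁) ⟨h8, sup_le hX3 (hle σ)⟩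
    have h10 : X ⊔ tw σ X₁ = X := by
      by_contra hne
      exact h9 (lt_of_le_of_ne le_sup_left (Ne.symm hne))
    exact sup_eq_left.1 h10
  have hWX : X = W := by
    refine le_antisymm hX3 ?_
    rw [hW]
    exact iSup_le hsub
  have hWne : W ≠ ⊥ := by
    intro h
    have h1 := hle 1
    rw [h, le_bot_iff] at h1
    have h2 := finrank_tw (1 : κ ≃ₐ[ℚ] κ) X₁
    rw [h1, finrank_bot] at h2
    omega
  refine ⟨W, hWne, ?_, ?_, ?_⟩
  · rw [hW]
    exact iSup_mono fun σ _ hx => hX₁A hx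
  · rw [hW]
    exact stable_sup X₁
  · rw [hWX] at hX1
    have h1 := hmin U hUA hU
    have h2 : (rr β W * finrank κ U) * finrank κ X₁ ≤ (rr β U * finrank κ W) * finrank κ X₁ := by
      calc (rr β W * finrank κ U) * finrank κ X₁ = (rr β W * finrank κ X₁) * finrank κ U := by ring
        _ ≤ (rr β X₁ * finrank κ W) * finrank κ U := Nat.mul_le_mul_right _ hX1
        _ = (rr β X₁ * finrank κ U) * finrank κ W := by ring
        _ ≤ (rr β U * finrank κ X₁) * finrank κ W := Nat.mul_le_mul_right _ h1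
        _ = _ := by ring
    exact Nat.le_of_mul_le_mul_right h2 hpos

end Pool.Agent.P8H21.RS
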